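import Pool.Agent.CTP.Poly

/-!
# ACC for canonical threshold polytopes: the toric case, in all dimensions

For all `d`, `s` and every DCC set `Γ` of real numbers the canonical threshold polytopes
`P(X, Δ; D_1, ..., D_s)` of the tuples for which `X` is a toric variety of dimension `d` and the
divisors are torus invariant satisfy the ascending chain condition under inclusion.
-/

namespace Pool.Agent.Retired.MP_afce3b_ag.Toric

open Pool.Agent.CTP

theorem result (d s : ℕ) (Γ : Set ℝ) (hΓ : IsDCC Γ) :
    ¬ ∃ T : ℕ → ToricTuple d s Γ, ∀ n, (T n).polytope ⊂ (T (n + 1)).polytope :=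
  acc_toric d s Γ hΓ

end Pool.Agent.Retired.MP_afce3b_ag.Toric
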